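import Mathlib
import Pool.Agent.Helper12.LW.Leaf

/-! Certificate of a cell. -/

namespace Pool.Agent.Helper12.LW.Cert

open Pool.Agent.Helper12.LW

/-- corners -/
def c0aaa : Cor := ⟨⟨24, 24, 24⟩, ⟨48, 24, 24⟩, ⟨48, 48, 24⟩, ⟨48, 48, 48⟩⟩

/-- certificate -/
def l0aaa : Leaf where
  f0 := ⟨-1, -1, -1⟩
  f1 := ⟨0, 0, 1⟩
  f2 := ⟨0, 1, 0⟩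
  x01 := (CC.C ⟨-1, 0, -1⟩ 178 ⟨0,0,0,0⟩ ⟨0,0,0,0⟩ ⟨2,4,1,4⟩ ⟨0,0,0,0⟩
      [])
  x10 := CC.A
  x02 := (CC.C ⟨-1, -1, 0⟩ 178 ⟨0,0,0,0⟩ ⟨0,0,0,0⟩ ⟨2,4,1,4⟩ ⟨0,0,0,0⟩
      [])
  x20 := CC.A
  x12 := (CC.C ⟨0, 1, 0⟩ 178 ⟨0,0,0,0⟩ ⟨0,0,0,0⟩ ⟨4,1,4,2⟩ ⟨0,0,0,0⟩
      [])
  x21 := (CC.C ⟨0, 0, 1⟩ 178 ⟨0,0,0,0⟩ ⟨0,0,0,0⟩ ⟨4,1,4,2⟩ ⟨0,0,0,0⟩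
      [])

theorem n0aaa : Good c0aaa.fn := leaf_good _ l0aaa (by decide +kernel)

end Pool.Agent.Helper12.LW.Cert
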