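import Mathlib
import Pool.Agent.Helper12.LW.Leaf

/-! Certificate of a cell. -/

namespace Pool.Agent.Helper12.LW.Cert

open Pool.Agent.Helper12.LW

/-- corners -/
def c0aab : Cor := ⟨⟨24, 24, 24⟩, ⟨48, 24, 24⟩, ⟨48, 48, 0⟩, ⟨48, 48, 24⟩⟩

/-- certificate -/
def l0aab : Leaf where
  f0 := ⟨-1, -1, 0⟩
  f1 := ⟨0, 0, -1⟩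
  f2 := ⟨0, 1, 0⟩
  x01 := (CC.C ⟨-1, 0, 0⟩ 180 ⟨3,3,2,3⟩ ⟨6,6,3,6⟩ ⟨0,0,0,0⟩ ⟨2,3,1,3⟩
      [⟨169, ⟨0,0,0,0,0,0,0,0,0,0,0,0⟩, ⟨0,4,0,0,3,0,0,0,0,0,0,3⟩, ⟨0,0,0,0,0,0,0,0,0,0,0,0⟩, ⟨0,0,0,0,0,0,0,0,0,0,0,0⟩⟩,
       ⟨158, ⟨0,0,0,0,0,0,0,0,0,0,0,0⟩, ⟨0,2,0,0,1,0,0,0,0,0,0,2⟩, ⟨0,0,0,0,0,0,0,0,0,0,0,0⟩, ⟨0,0,0,0,0,0,0,0,0,0,0,0⟩⟩])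
  x10 := CC.A
  x02 := (CC.C ⟨-1, -1, -1⟩ 178 ⟨0,0,0,0⟩ ⟨1,1,1,1⟩ ⟨0,0,0,0⟩ ⟨2,4,1,4⟩
      [])
  x20 := CC.A
  x12 := (CC.C ⟨0, 1, 0⟩ 178 ⟨0,0,0,0⟩ ⟨1,1,1,1⟩ ⟨0,0,0,0⟩ ⟨4,1,4,2⟩
      [])
  x21 := (CC.C ⟨0, 0, -1⟩ 180 ⟨3,2,3,3⟩ ⟨6,3,6,6⟩ ⟨0,0,0,0⟩ ⟨3,1,3,2⟩
      [⟨169, ⟨0,0,0,0,0,0,0,0,0,0,0,0⟩, ⟨3,0,0,0,0,0,0,3,0,0,4,0⟩, ⟨0,0,0,0,0,0,0,0,0,0,0,0⟩, ⟨0,0,0,0,0,0,0,0,0,0,0,0⟩⟩,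
       ⟨158, ⟨0,0,0,0,0,0,0,0,0,0,0,0⟩, ⟨2,0,0,0,0,0,0,1,0,0,2,0⟩, ⟨0,0,0,0,0,0,0,0,0,0,0,0⟩, ⟨0,0,0,0,0,0,0,0,0,0,0,0⟩⟩])

theorem n0aab : Good c0aab.fn := leaf_good _ l0aab (by decide +kernel)

end Pool.Agent.Helper12.LW.Cert
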