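import Mathlib
import Pool.Agent.Helper12.LW.Leaf

/-! Certificate of a cell. -/

namespace Pool.Agent.Helper12.LW.Cert

open Pool.Agent.Helper12.LW

/-- corners -/
def c0ab : Cor := ⟨⟨24, 24, 24⟩, ⟨48, 0, 0⟩, ⟨48, 48, 0⟩, ⟨48, 24, 24⟩⟩

/-- certificate -/
def l0ab : Leaf where
  f0 := ⟨-1, -1, 0⟩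
  f1 := ⟨0, 0, -1⟩
  f2 := ⟨0, 1, 0⟩
  x01 := (CC.C ⟨-1, 0, 0⟩ 190 ⟨2,2,2,2⟩ ⟨3,6,2,5⟩ ⟨0,0,0,0⟩ ⟨4,4,2,4⟩
      [⟨182, ⟨1,2,1,1,1,1,1,1,1,1,1,1⟩, ⟨3,3,2,3,6,3,1,2,1,3,5,4⟩, ⟨0,0,0,0,0,0,0,0,0,0,0,0⟩, ⟨2,3,2,2,3,2,2,2,1,2,2,3⟩⟩,
       ⟨177, ⟨0,1,0,0,1,0,0,0,0,0,0,1⟩, ⟨2,2,0,0,3,0,0,1,0,0,4,3⟩, ⟨0,0,0,0,0,0,0,0,0,0,0,0⟩, ⟨1,2,0,1,2,0,1,1,0,1,1,2⟩⟩,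
       ⟨173, ⟨0,0,0,0,0,0,0,0,0,0,0,0⟩, ⟨1,1,0,0,2,0,0,1,0,0,3,2⟩, ⟨0,0,0,0,0,0,0,0,0,0,0,0⟩, ⟨0,2,0,0,2,0,0,0,0,0,0,2⟩⟩,
       ⟨168, ⟨0,0,0,0,0,0,0,0,0,0,0,0⟩, ⟨1,1,0,0,1,0,0,1,0,0,2,1⟩, ⟨0,0,0,0,0,0,0,0,0,0,0,0⟩, ⟨0,2,0,0,2,0,0,0,0,0,0,2⟩⟩,
       ⟨157, ⟨0,0,0,0,0,0,0,0,0,0,0,0⟩, ⟨0,0,0,0,0,0,0,0,0,0,0,0⟩, ⟨0,0,0,0,0,0,0,0,0,0,0,0⟩, ⟨0,1,0,0,1,0,0,0,0,0,0,1⟩⟩])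
  x10 := CC.A
  x02 := (CC.C ⟨-1, -1, -1⟩ 172 ⟨0,0,0,0⟩ ⟨0,0,0,0⟩ ⟨0,0,0,0⟩ ⟨1,2,1,1⟩
      [])
  x20 := CC.A
  x12 := (CC.C ⟨0, 1, 0⟩ 172 ⟨0,0,0,0⟩ ⟨0,0,0,0⟩ ⟨0,0,0,0⟩ ⟨1,1,2,1⟩
      [])
  x21 := (CC.C ⟨0, 0, -1⟩ 190 ⟨2,2,2,2⟩ ⟨5,2,6,3⟩ ⟨0,0,0,0⟩ ⟨4,2,4,4⟩
      [⟨182, ⟨1,1,1,1,1,1,1,1,1,1,2,1⟩, ⟨4,5,3,1,2,1,3,6,3,2,3,3⟩, ⟨0,0,0,0,0,0,0,0,0,0,0,0⟩, ⟨3,2,2,1,2,2,2,3,2,2,3,2⟩⟩,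
       ⟨177, ⟨1,0,0,0,0,0,0,1,0,0,1,0⟩, ⟨3,4,0,0,1,0,0,3,0,0,2,2⟩, ⟨0,0,0,0,0,0,0,0,0,0,0,0⟩, ⟨2,1,1,0,1,1,0,2,1,0,2,1⟩⟩,
       ⟨173, ⟨0,0,0,0,0,0,0,0,0,0,0,0⟩, ⟨2,3,0,0,1,0,0,2,0,0,1,1⟩, ⟨0,0,0,0,0,0,0,0,0,0,0,0⟩, ⟨2,0,0,0,0,0,0,2,0,0,2,0⟩⟩,
       ⟨168, ⟨0,0,0,0,0,0,0,0,0,0,0,0⟩, ⟨1,2,0,0,1,0,0,1,0,0,1,1⟩, ⟨0,0,0,0,0,0,0,0,0,0,0,0⟩, ⟨2,0,0,0,0,0,0,2,0,0,2,0⟩⟩,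
       ⟨157, ⟨0,0,0,0,0,0,0,0,0,0,0,0⟩, ⟨0,0,0,0,0,0,0,0,0,0,0,0⟩, ⟨0,0,0,0,0,0,0,0,0,0,0,0⟩, ⟨1,0,0,0,0,0,0,1,0,0,1,0⟩⟩])

theorem n0ab : Good c0ab.fn := leaf_good _ l0ab (by decide +kernel)

end Pool.Agent.Helper12.LW.Cert
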