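import Mathlib
import Pool.Agent.Helper12.LW.Leaf

/-! Certificate of a cell. -/

namespace Pool.Agent.Helper12.LW.Cert

open Pool.Agent.Helper12.LW

/-- corners -/
def c0bb : Cor := ⟨⟨0, 0, 0⟩, ⟨48, 0, 0⟩, ⟨24, 24, 0⟩, ⟨24, 24, 24⟩⟩

/-- certificate -/
def l0bb : Leaf where
  f0 := ⟨-1, -1, -1⟩
  f1 := ⟨0, 0, 1⟩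
  f2 := ⟨0, 1, 0⟩
  x01 := CC.A
  x10 := CC.A
  x02 := (CC.C ⟨-1, -1, 0⟩ 190 ⟨0,0,0,0⟩ ⟨3,5,2,6⟩ ⟨0,0,0,0⟩ ⟨0,0,0,0⟩
      [⟨182, ⟨0,0,0,0,0,0,0,0,0,0,0,0⟩, ⟨2,3,3,3,4,5,1,1,2,3,3,6⟩, ⟨0,0,0,0,0,0,0,0,0,0,0,0⟩, ⟨0,0,0,0,0,0,0,0,0,0,0,0⟩⟩,
       ⟨177, ⟨0,0,0,0,0,0,0,0,0,0,0,0⟩, ⟨0,2,2,0,3,4,0,0,1,0,0,3⟩, ⟨0,0,0,0,0,0,0,0,0,0,0,0⟩, ⟨0,0,0,0,0,0,0,0,0,0,0,0⟩⟩,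
       ⟨173, ⟨0,0,0,0,0,0,0,0,0,0,0,0⟩, ⟨0,1,1,0,2,3,0,0,1,0,0,2⟩, ⟨0,0,0,0,0,0,0,0,0,0,0,0⟩, ⟨0,0,0,0,0,0,0,0,0,0,0,0⟩⟩,
       ⟨168, ⟨0,0,0,0,0,0,0,0,0,0,0,0⟩, ⟨0,1,1,0,1,2,0,0,1,0,0,1⟩, ⟨0,0,0,0,0,0,0,0,0,0,0,0⟩, ⟨0,0,0,0,0,0,0,0,0,0,0,0⟩⟩])
  x20 := CC.A
  x12 := (CC.C ⟨0, 1, 0⟩ 190 ⟨0,0,0,0⟩ ⟨6,2,5,3⟩ ⟨0,0,0,0⟩ ⟨0,0,0,0⟩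
      [⟨182, ⟨0,0,0,0,0,0,0,0,0,0,0,0⟩, ⟨6,3,3,2,1,1,5,4,3,3,3,2⟩, ⟨0,0,0,0,0,0,0,0,0,0,0,0⟩, ⟨0,0,0,0,0,0,0,0,0,0,0,0⟩⟩,
       ⟨177, ⟨0,0,0,0,0,0,0,0,0,0,0,0⟩, ⟨3,0,0,1,0,0,4,3,0,2,2,0⟩, ⟨0,0,0,0,0,0,0,0,0,0,0,0⟩, ⟨0,0,0,0,0,0,0,0,0,0,0,0⟩⟩,
       ⟨173, ⟨0,0,0,0,0,0,0,0,0,0,0,0⟩, ⟨2,0,0,1,0,0,3,2,0,1,1,0⟩, ⟨0,0,0,0,0,0,0,0,0,0,0,0⟩, ⟨0,0,0,0,0,0,0,0,0,0,0,0⟩⟩,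
       ⟨168, ⟨0,0,0,0,0,0,0,0,0,0,0,0⟩, ⟨1,0,0,1,0,0,2,1,0,1,1,0⟩, ⟨0,0,0,0,0,0,0,0,0,0,0,0⟩, ⟨0,0,0,0,0,0,0,0,0,0,0,0⟩⟩])
  x21 := CC.A

theorem n0bb : Good c0bb.fn := leaf_good _ l0bb (by decide +kernel)

end Pool.Agent.Helper12.LW.Cert
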