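import Mathlib
import Pool.Agent.Helper12.LW.Leaf

/-! Certificate of a cell. -/

namespace Pool.Agent.Helper12.LW.Cert

open Pool.Agent.Helper12.LW

/-- corners -/
def c1a : Cor := ⟨⟨-24, -24, 0⟩, ⟨-48, 0, 0⟩, ⟨-48, -24, -24⟩, ⟨-48, -48, 0⟩⟩

/-- certificate -/
def l1a : Leaf where
  f0 := ⟨-1, 0, 1⟩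
  f1 := ⟨0, 0, -1⟩
  f2 := ⟨0, 1, 0⟩
  x01 := CC.A
  x10 := (CC.C ⟨-1, 1, -1⟩ 178 ⟨0,0,0,0⟩ ⟨0,0,0,0⟩ ⟨1,4,2,4⟩ ⟨0,0,0,0⟩
      [])
  x02 := (CC.C ⟨0, 0, 1⟩ 190 ⟨0,0,0,0⟩ ⟨5,3,6,2⟩ ⟨2,2,2,1⟩ ⟨0,0,0,0⟩
      [⟨182, ⟨0,0,0,0,0,0,0,0,0,0,0,0⟩, ⟨3,5,4,2,3,3,3,3,6,1,1,2⟩, ⟨0,0,1,0,0,1,0,0,1,0,0,0⟩, ⟨0,0,0,0,0,0,0,0,0,0,0,0⟩⟩,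
       ⟨177, ⟨0,0,0,0,0,0,0,0,0,0,0,0⟩, ⟨0,4,3,0,2,2,0,0,3,0,0,1⟩, ⟨0,0,0,0,0,0,0,0,0,0,0,0⟩, ⟨0,0,0,0,0,0,0,0,0,0,0,0⟩⟩,
       ⟨173, ⟨0,0,0,0,0,0,0,0,0,0,0,0⟩, ⟨0,3,2,0,1,1,0,0,2,0,0,1⟩, ⟨0,0,0,0,0,0,0,0,0,0,0,0⟩, ⟨0,0,0,0,0,0,0,0,0,0,0,0⟩⟩,
       ⟨168, ⟨0,0,0,0,0,0,0,0,0,0,0,0⟩, ⟨0,2,1,0,1,1,0,0,1,0,0,1⟩, ⟨0,0,0,0,0,0,0,0,0,0,0,0⟩, ⟨0,0,0,0,0,0,0,0,0,0,0,0⟩⟩])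
  x20 := (CC.C ⟨0, 0, 1⟩ 178 ⟨0,0,0,0⟩ ⟨0,0,0,0⟩ ⟨4,2,4,1⟩ ⟨0,0,0,0⟩
      [])
  x12 := (CC.C ⟨-1, 1, -1⟩ 190 ⟨0,0,0,0⟩ ⟨2,6,3,5⟩ ⟨1,2,2,2⟩ ⟨0,0,0,0⟩
      [⟨182, ⟨0,0,0,0,0,0,0,0,0,0,0,0⟩, ⟨2,1,1,6,3,3,3,3,2,4,5,3⟩, ⟨0,0,0,1,0,0,1,0,0,1,0,0⟩, ⟨0,0,0,0,0,0,0,0,0,0,0,0⟩⟩,
       ⟨177, ⟨0,0,0,0,0,0,0,0,0,0,0,0⟩, ⟨1,0,0,3,0,0,2,2,0,3,4,0⟩, ⟨0,0,0,0,0,0,0,0,0,0,0,0⟩, ⟨0,0,0,0,0,0,0,0,0,0,0,0⟩⟩,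
       ⟨173, ⟨0,0,0,0,0,0,0,0,0,0,0,0⟩, ⟨1,0,0,2,0,0,1,1,0,2,3,0⟩, ⟨0,0,0,0,0,0,0,0,0,0,0,0⟩, ⟨0,0,0,0,0,0,0,0,0,0,0,0⟩⟩,
       ⟨168, ⟨0,0,0,0,0,0,0,0,0,0,0,0⟩, ⟨1,0,0,1,0,0,1,1,0,1,2,0⟩, ⟨0,0,0,0,0,0,0,0,0,0,0,0⟩, ⟨0,0,0,0,0,0,0,0,0,0,0,0⟩⟩])
  x21 := CC.A

theorem n1a : Good c1a.fn := leaf_good _ l1a (by decide +kernel)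

end Pool.Agent.Helper12.LW.Cert
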