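import Mathlib
import Pool.Agent.Helper12.LW.Leaf

/-! Certificate of a cell. -/

namespace Pool.Agent.Helper12.LW.Cert

open Pool.Agent.Helper12.LW

/-- corners -/
def c1bb : Cor := ⟨⟨0, 0, 0⟩, ⟨-48, 0, 0⟩, ⟨-24, -12, -12⟩, ⟨-24, -24, 0⟩⟩

/-- certificate -/
def l1bb : Leaf where
  f0 := ⟨-1, 0, 0⟩
  f1 := ⟨0, 0, 1⟩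
  f2 := ⟨0, 1, 0⟩
  x01 := (CC.C ⟨0, 0, 1⟩ 190 ⟨0,0,0,0⟩ ⟨5,2,6,3⟩ ⟨1,1,1,1⟩ ⟨0,0,0,0⟩
      [⟨182, ⟨0,0,0,0,0,0,0,0,0,0,0,0⟩, ⟨4,5,3,1,2,1,3,6,3,2,3,3⟩, ⟨0,0,0,0,0,0,0,0,0,0,0,0⟩, ⟨0,0,0,0,0,0,0,0,0,0,0,0⟩⟩,
       ⟨177, ⟨0,0,0,0,0,0,0,0,0,0,0,0⟩, ⟨3,4,0,0,1,0,0,3,0,0,2,2⟩, ⟨0,0,0,0,0,0,0,0,0,0,0,0⟩, ⟨0,0,0,0,0,0,0,0,0,0,0,0⟩⟩,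
       ⟨173, ⟨0,0,0,0,0,0,0,0,0,0,0,0⟩, ⟨2,3,0,0,1,0,0,2,0,0,1,1⟩, ⟨0,0,0,0,0,0,0,0,0,0,0,0⟩, ⟨0,0,0,0,0,0,0,0,0,0,0,0⟩⟩,
       ⟨168, ⟨0,0,0,0,0,0,0,0,0,0,0,0⟩, ⟨1,2,0,0,1,0,0,1,0,0,1,1⟩, ⟨0,0,0,0,0,0,0,0,0,0,0,0⟩, ⟨0,0,0,0,0,0,0,0,0,0,0,0⟩⟩])
  x10 := CC.A
  x02 := CC.A
  x20 := CC.A
  x12 := CC.A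
  x21 := (CC.C ⟨0, 0, 1⟩ 190 ⟨0,0,0,0⟩ ⟨5,2,6,3⟩ ⟨1,1,1,1⟩ ⟨0,0,0,0⟩
      [⟨182, ⟨0,0,0,0,0,0,0,0,0,0,0,0⟩, ⟨4,5,3,1,2,1,3,6,3,2,3,3⟩, ⟨0,0,0,0,0,0,0,0,0,0,0,0⟩, ⟨0,0,0,0,0,0,0,0,0,0,0,0⟩⟩,
       ⟨177, ⟨0,0,0,0,0,0,0,0,0,0,0,0⟩, ⟨3,4,0,0,1,0,0,3,0,0,2,2⟩, ⟨0,0,0,0,0,0,0,0,0,0,0,0⟩, ⟨0,0,0,0,0,0,0,0,0,0,0,0⟩⟩,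
       ⟨173, ⟨0,0,0,0,0,0,0,0,0,0,0,0⟩, ⟨2,3,0,0,1,0,0,2,0,0,1,1⟩, ⟨0,0,0,0,0,0,0,0,0,0,0,0⟩, ⟨0,0,0,0,0,0,0,0,0,0,0,0⟩⟩,
       ⟨168, ⟨0,0,0,0,0,0,0,0,0,0,0,0⟩, ⟨1,2,0,0,1,0,0,1,0,0,1,1⟩, ⟨0,0,0,0,0,0,0,0,0,0,0,0⟩, ⟨0,0,0,0,0,0,0,0,0,0,0,0⟩⟩])

theorem n1bb : Good c1bb.fn := leaf_good _ l1bb (by decide +kernel)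

end Pool.Agent.Helper12.LW.Cert
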