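import Mathlib
import Pool.Agent.Helper12.LW.Leaf

/-! Certificate of a cell. -/

namespace Pool.Agent.Helper12.LW.Cert

open Pool.Agent.Helper12.LW

/-- corners -/
def c2bba : Cor := ⟨⟨-16, -16, -16⟩, ⟨-24, -12, -12⟩, ⟨-32, -32, -32⟩, ⟨-24, -24, 0⟩⟩

/-- certificate -/
def l2bba : Leaf where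
  f0 := ⟨-1, 0, 1⟩
  f1 := ⟨0, 0, -1⟩
  f2 := ⟨0, 1, 0⟩
  x01 := CC.A
  x10 := (CC.C ⟨0, 1, -1⟩ 196 ⟨0,0,0,0⟩ ⟨0,0,0,0⟩ ⟨5,2,1,2⟩ ⟨0,0,0,0⟩
      [⟨193, ⟨0,0,0,0,0,0,0,0,0,0,0,0⟩, ⟨0,0,0,0,0,0,0,0,0,0,0,0⟩, ⟨3,5,3,2,2,2,1,1,1,2,2,2⟩, ⟨0,0,0,0,0,0,0,0,0,0,0,0⟩⟩,
       ⟨190, ⟨0,0,0,0,0,0,0,0,0,0,0,0⟩, ⟨0,0,0,0,0,0,0,0,0,0,0,0⟩, ⟨2,5,2,2,2,1,1,1,1,2,1,2⟩, ⟨0,0,0,0,0,0,0,0,0,0,0,0⟩⟩,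
       ⟨188, ⟨0,0,0,0,0,0,0,0,0,0,0,0⟩, ⟨0,0,0,0,0,0,0,0,0,0,0,0⟩, ⟨1,3,1,2,2,1,1,1,1,2,1,2⟩, ⟨0,0,0,0,0,0,0,0,0,0,0,0⟩⟩,
       ⟨186, ⟨0,0,0,0,0,0,0,0,0,0,0,0⟩, ⟨0,0,0,0,0,0,0,0,0,0,0,0⟩, ⟨0,3,0,2,1,0,1,0,0,2,0,1⟩, ⟨0,0,0,0,0,0,0,0,0,0,0,0⟩⟩,
       ⟨183, ⟨0,0,0,0,0,0,0,0,0,0,0,0⟩, ⟨0,0,0,0,0,0,0,0,0,0,0,0⟩, ⟨0,3,0,1,1,0,1,0,0,1,0,1⟩, ⟨0,0,0,0,0,0,0,0,0,0,0,0⟩⟩,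
       ⟨179, ⟨0,0,0,0,0,0,0,0,0,0,0,0⟩, ⟨0,0,0,0,0,0,0,0,0,0,0,0⟩, ⟨0,2,0,1,1,0,1,0,0,1,0,1⟩, ⟨0,0,0,0,0,0,0,0,0,0,0,0⟩⟩])
  x02 := (CC.C ⟨0, 1, 0⟩ 196 ⟨0,0,0,0⟩ ⟨0,0,0,0⟩ ⟨2,1,2,5⟩ ⟨0,0,0,0⟩
      [⟨193, ⟨0,0,0,0,0,0,0,0,0,0,0,0⟩, ⟨0,0,0,0,0,0,0,0,0,0,0,0⟩, ⟨2,2,2,1,1,1,2,2,2,3,5,3⟩, ⟨0,0,0,0,0,0,0,0,0,0,0,0⟩⟩,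
       ⟨190, ⟨0,0,0,0,0,0,0,0,0,0,0,0⟩, ⟨0,0,0,0,0,0,0,0,0,0,0,0⟩, ⟨2,1,2,1,1,1,1,2,2,2,5,2⟩, ⟨0,0,0,0,0,0,0,0,0,0,0,0⟩⟩,
       ⟨188, ⟨0,0,0,0,0,0,0,0,0,0,0,0⟩, ⟨0,0,0,0,0,0,0,0,0,0,0,0⟩, ⟨2,1,2,1,1,1,1,2,2,1,3,1⟩, ⟨0,0,0,0,0,0,0,0,0,0,0,0⟩⟩,
       ⟨186, ⟨0,0,0,0,0,0,0,0,0,0,0,0⟩, ⟨0,0,0,0,0,0,0,0,0,0,0,0⟩, ⟨1,0,2,0,0,1,0,1,2,0,3,0⟩, ⟨0,0,0,0,0,0,0,0,0,0,0,0⟩⟩,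
       ⟨183, ⟨0,0,0,0,0,0,0,0,0,0,0,0⟩, ⟨0,0,0,0,0,0,0,0,0,0,0,0⟩, ⟨1,0,1,0,0,1,0,1,1,0,3,0⟩, ⟨0,0,0,0,0,0,0,0,0,0,0,0⟩⟩,
       ⟨179, ⟨0,0,0,0,0,0,0,0,0,0,0,0⟩, ⟨0,0,0,0,0,0,0,0,0,0,0,0⟩, ⟨1,0,1,0,0,1,0,1,1,0,2,0⟩, ⟨0,0,0,0,0,0,0,0,0,0,0,0⟩⟩])
  x20 := (CC.C ⟨-1, 0, 1⟩ 196 ⟨0,0,0,0⟩ ⟨0,0,0,0⟩ ⟨2,1,2,5⟩ ⟨0,0,0,0⟩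
      [⟨193, ⟨0,0,0,0,0,0,0,0,0,0,0,0⟩, ⟨0,0,0,0,0,0,0,0,0,0,0,0⟩, ⟨2,2,2,1,1,1,2,2,2,3,5,3⟩, ⟨0,0,0,0,0,0,0,0,0,0,0,0⟩⟩,
       ⟨190, ⟨0,0,0,0,0,0,0,0,0,0,0,0⟩, ⟨0,0,0,0,0,0,0,0,0,0,0,0⟩, ⟨2,1,2,1,1,1,1,2,2,2,5,2⟩, ⟨0,0,0,0,0,0,0,0,0,0,0,0⟩⟩,
       ⟨188, ⟨0,0,0,0,0,0,0,0,0,0,0,0⟩, ⟨0,0,0,0,0,0,0,0,0,0,0,0⟩, ⟨2,1,2,1,1,1,1,2,2,1,3,1⟩, ⟨0,0,0,0,0,0,0,0,0,0,0,0⟩⟩,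
       ⟨186, ⟨0,0,0,0,0,0,0,0,0,0,0,0⟩, ⟨0,0,0,0,0,0,0,0,0,0,0,0⟩, ⟨1,0,2,0,0,1,0,1,2,0,3,0⟩, ⟨0,0,0,0,0,0,0,0,0,0,0,0⟩⟩,
       ⟨183, ⟨0,0,0,0,0,0,0,0,0,0,0,0⟩, ⟨0,0,0,0,0,0,0,0,0,0,0,0⟩, ⟨1,0,1,0,0,1,0,1,1,0,3,0⟩, ⟨0,0,0,0,0,0,0,0,0,0,0,0⟩⟩,
       ⟨179, ⟨0,0,0,0,0,0,0,0,0,0,0,0⟩, ⟨0,0,0,0,0,0,0,0,0,0,0,0⟩, ⟨1,0,1,0,0,1,0,1,1,0,2,0⟩, ⟨0,0,0,0,0,0,0,0,0,0,0,0⟩⟩])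
  x12 := (CC.C ⟨-1, 0, 0⟩ 196 ⟨0,0,0,0⟩ ⟨0,0,0,0⟩ ⟨5,2,1,2⟩ ⟨0,0,0,0⟩
      [⟨193, ⟨0,0,0,0,0,0,0,0,0,0,0,0⟩, ⟨0,0,0,0,0,0,0,0,0,0,0,0⟩, ⟨3,5,3,2,2,2,1,1,1,2,2,2⟩, ⟨0,0,0,0,0,0,0,0,0,0,0,0⟩⟩,
       ⟨190, ⟨0,0,0,0,0,0,0,0,0,0,0,0⟩, ⟨0,0,0,0,0,0,0,0,0,0,0,0⟩, ⟨2,5,2,2,2,1,1,1,1,2,1,2⟩, ⟨0,0,0,0,0,0,0,0,0,0,0,0⟩⟩,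
       ⟨188, ⟨0,0,0,0,0,0,0,0,0,0,0,0⟩, ⟨0,0,0,0,0,0,0,0,0,0,0,0⟩, ⟨1,3,1,2,2,1,1,1,1,2,1,2⟩, ⟨0,0,0,0,0,0,0,0,0,0,0,0⟩⟩,
       ⟨186, ⟨0,0,0,0,0,0,0,0,0,0,0,0⟩, ⟨0,0,0,0,0,0,0,0,0,0,0,0⟩, ⟨0,3,0,2,1,0,1,0,0,2,0,1⟩, ⟨0,0,0,0,0,0,0,0,0,0,0,0⟩⟩,
       ⟨183, ⟨0,0,0,0,0,0,0,0,0,0,0,0⟩, ⟨0,0,0,0,0,0,0,0,0,0,0,0⟩, ⟨0,3,0,1,1,0,1,0,0,1,0,1⟩, ⟨0,0,0,0,0,0,0,0,0,0,0,0⟩⟩,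
       ⟨179, ⟨0,0,0,0,0,0,0,0,0,0,0,0⟩, ⟨0,0,0,0,0,0,0,0,0,0,0,0⟩, ⟨0,2,0,1,1,0,1,0,0,1,0,1⟩, ⟨0,0,0,0,0,0,0,0,0,0,0,0⟩⟩])
  x21 := CC.A

theorem n2bba : Good c2bba.fn := leaf_good _ l2bba (by decide +kernel)

end Pool.Agent.Helper12.LW.Cert
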