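import Mathlib
import Pool.Agent.Helper12.LW.Leaf

/-! Certificate of a cell. -/

namespace Pool.Agent.Helper12.LW.Cert

open Pool.Agent.Helper12.LW

/-- corners -/
def c2bbb : Cor := ⟨⟨0, 0, 0⟩, ⟨-24, -12, -12⟩, ⟨-16, -16, -16⟩, ⟨-24, -24, 0⟩⟩

/-- certificate -/
def l2bbb : Leaf where
  f0 := ⟨-1, 0, 0⟩
  f1 := ⟨0, 0, 1⟩
  f2 := ⟨0, 1, 0⟩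
  x01 := (CC.C ⟨-1, 1, 0⟩ 180 ⟨0,0,0,0⟩ ⟨1,1,1,1⟩ ⟨1,4,2,1⟩ ⟨0,0,0,0⟩
      [])
  x10 := CC.A
  x02 := (CC.C ⟨-1, 0, 1⟩ 180 ⟨0,0,0,0⟩ ⟨0,0,0,0⟩ ⟨1,4,2,1⟩ ⟨0,0,0,0⟩
      [])
  x20 := CC.A
  x12 := (CC.C ⟨0, 1, 0⟩ 180 ⟨0,0,0,0⟩ ⟨0,0,0,0⟩ ⟨1,2,4,1⟩ ⟨0,0,0,0⟩
      [])
  x21 := (CC.C ⟨0, 0, 1⟩ 180 ⟨0,0,0,0⟩ ⟨1,1,1,1⟩ ⟨1,2,4,1⟩ ⟨0,0,0,0⟩
      [])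

theorem n2bbb : Good c2bbb.fn := leaf_good _ l2bbb (by decide +kernel)

end Pool.Agent.Helper12.LW.Cert
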